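import Pool.Agent.H.MP_bb4c62_an.helper6.NDefs

/-!
The fundamental theorems of affine and of projective geometry over the complex numbers.
-/

namespace Pool.Agent.H.MP_bb4c62_an.helper6.NL

open Complex Metric Set Filter Topology
open Pool.Agent.H.MP_bb4c62_an.helper6.Perturb
open Pool.Agent.H.MP_bb4c62_an.helper6.Gadgets

theorem ftag {V W : Type*} [AddCommGroup V] [Module ℂ V] [AddCommGroup W] [Module ℂ W]
    (hdim : ∃ u v : V, LinearIndependent ℂ ![u, v]) (α : V → W)
    (hinj : Function.Injective α) (h0 : α 0 = 0)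
    (hline : ∀ u v : V, v ≠ 0 → ∃ w : W, w ≠ 0 ∧
      Set.range (fun t : ℂ => α (u + t • v)) = Set.range (fun s : ℂ => α u + s • w)) :
    ∃ τ : ℂ ≃+* ℂ, (∀ u v, α (u + v) = α u + α v) ∧
      ∀ (c : ℂ) (u : V), α (c • u) = τ c • α u := by
  classical
  have hne : ∀ v, v ≠ 0 → α v ≠ 0 := by
    intro v hv h
    apply hv
    apply hinj
    rw [h, h0]
  -- lines through zero
  have hL0 : ∀ v, v ≠ 0 → (∀ t : ℂ, ∃ s : ℂ, α (t • v) = s • α v) ∧
      (∀ s : ℂ, ∃ t : ℂ, α (t • v) = s • α v) := by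
    intro v hv
    obtain ⟨w, hw, hr⟩ := hline 0 v hv
    have h1 : α v ∈ Set.range (fun t : ℂ => α (0 + t • v)) := ⟨1, by simp⟩
    rw [hr] at h1
    obtain ⟨s0, hs0⟩ := h1
    have hs0' : s0 • w = α v := by
      have : α 0 + s0 • w = α v := hs0
      rwa [h0, zero_add] at this
    have hs00 : s0 ≠ 0 := by
      rintro rfl
      rw [zero_smul] at hs0'
      exact hne v hv hs0'.symm
    constructor
    · intro t
      have h2 : α (t • v) ∈ Set.range (fun t : ℂ => α (0 + t • v)) := ⟨t, by simp⟩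
      rw [hr] at h2
      obtain ⟨s, hs⟩ := h2
      have hs' : s • w = α (t • v) := by
        have : α 0 + s • w = α (t • v) := hs
        rwa [h0, zero_add] at this
      refine ⟨s * s0⁻¹, ?_⟩
      rw [← hs', ← hs0', smul_smul, mul_assoc, inv_mul_cancel₀ hs00, mul_one]
    · intro s
      have h2 : s • α v ∈ Set.range (fun s : ℂ => α 0 + s • w) := by
        refine ⟨s * s0, ?_⟩
        show α 0 + (s * s0) • w = s • α v
        rw [h0, zero_add, mul_smul, hs0']
      rw [← hr] at h2
      obtain ⟨t, ht⟩ := h2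
      refine ⟨t, ?_⟩
      have : α (0 + t • v) = s • α v := ht
      rwa [zero_add] at this
  have hsymm : ∀ u v : V, u ≠ 0 → (∀ c : ℂ, v ≠ c • u) → v ≠ 0 ∧ ∀ c : ℂ, u ≠ c • v := by
    intro u v hu h
    refine ⟨?_, ?_⟩
    · intro hv
      exact h 0 (by rw [hv, zero_smul])
    · intro c hc
      have hc0 : c ≠ 0 := by
        rintro rfl
        rw [zero_smul] at hc
        exact hu hc
      exact h c⁻¹ (by rw [hc, smul_smul, inv_mul_cancel₀ hc0, one_smul])
  -- (1)
  have h1 : ∀ u v : V, u ≠ 0 → (∀ c : ℂ, v ≠ c • u) → ∀ c : ℂ, α v ≠ c • α u := by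
    intro u v hu h c hc
    obtain ⟨t, ht⟩ := (hL0 u hu).2 c
    rw [← ht] at hc
    exact h t (hinj hc)
  -- (2)
  have h2 : ∀ u v : V, u ≠ 0 → (∀ c : ℂ, v ≠ c • u) → ∀ s t : ℂ, ∃ a b : ℂ,
      α (s • u + t • v) = a • α u + b • α v := by
    intro u v hu h s t
    obtain ⟨hv, h'⟩ := hsymm u v hu h
    by_cases hs : s = 0
    · obtain ⟨b, hb⟩ := (hL0 v hv).1 t
      exact ⟨0, b, by rw [hs, zero_smul, zero_add, hb, zero_smul, zero_add]⟩
    by_cases ht : t = 0
    · obtain ⟨a, ha⟩ := (hL0 u hu).1 s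
      exact ⟨a, 0, by rw [ht, zero_smul, add_zero, ha, zero_smul, add_zero]⟩
    have hd : (2 * t) • v - (2 * s) • u ≠ 0 := by
      intro hd
      apply h ((2 * t)⁻¹ * (2 * s))
      have h2t : (2 * t : ℂ) ≠ 0 := mul_ne_zero two_ne_zero ht
      rw [mul_smul, ← sub_eq_zero.mp hd, smul_smul, inv_mul_cancel₀ h2t, one_smul]
    obtain ⟨w, hw, hr⟩ := hline ((2 * s) • u) _ hd
    obtain ⟨a, ha⟩ := (hL0 u hu).1 (2 * s)
    obtain ⟨b, hb⟩ := (hL0 v hv).1 (2 * t)
    have e1 : α ((2 * t) • v) ∈ Set.range (fun r : ℂ =>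
        α ((2 * s) • u + r • ((2 * t) • v - (2 * s) • u))) := ⟨1, by simp⟩
    rw [hr] at e1
    obtain ⟨r1, hr1⟩ := e1
    have hr1' : α ((2 * s) • u) + r1 • w = α ((2 * t) • v) := hr1
    have hr10 : r1 ≠ 0 := by
      rintro rfl
      rw [zero_smul, add_zero] at hr1'
      have := hinj hr1'
      apply hd
      rw [this, sub_self]
    have e2 : α (s • u + t • v) ∈ Set.range (fun r : ℂ =>
        α ((2 * s) • u + r • ((2 * t) • v - (2 * s) • u))) := by
      refine ⟨1 / 2, ?_⟩
      show α _ = α _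
      congr 1
      module
    rw [hr] at e2
    obtain ⟨r2, hr2⟩ := e2
    have hr2' : α ((2 * s) • u) + r2 • w = α (s • u + t • v) := hr2
    have hw' : w = r1⁻¹ • (b • α v - a • α u) := by
      rw [← ha, ← hb, ← hr1', add_sub_cancel_left, smul_smul, inv_mul_cancel₀ hr10, one_smul]
    refine ⟨a - r2 * r1⁻¹ * a, r2 * r1⁻¹ * b, ?_⟩
    rw [← hr2', hw', ha]
    module
  -- (3)
  have h3 : ∀ u v : V, u ≠ 0 → (∀ c : ℂ, v ≠ c • u) → ∀ t : ℂ, ∃ s : ℂ,
      α (u + t • v) = α u + s • α v := by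
    intro u v hu h t
    obtain ⟨hv, h'⟩ := hsymm u v hu h
    obtain ⟨w, hw, hr⟩ := hline u v hv
    have e1 : α (u + v) ∈ Set.range (fun r : ℂ => α (u + r • v)) := ⟨1, by simp⟩
    rw [hr] at e1
    obtain ⟨s1, hs1⟩ := e1
    have hs1' : α u + s1 • w = α (u + v) := hs1
    have hs10 : s1 ≠ 0 := by
      rintro rfl
      rw [zero_smul, add_zero] at hs1'
      have := hinj hs1'
      apply hv
      have h5 : u + v = u + 0 := by rw [add_zero]; exact this.symm
      exact add_left_cancel h5
    obtain ⟨a, b, hab⟩ := h2 u v hu h 1 1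
    rw [one_smul, one_smul] at hab
    have hw' : w = (s1⁻¹ * (a - 1)) • α u + (s1⁻¹ * b) • α v := by
      have e2 : s1 • w = (a - 1) • α u + b • α v := by
        have e3 : s1 • w = α (u + v) - α u := by rw [← hs1']; abel
        rw [e3, hab]; module
      have e4 : w = s1⁻¹ • (s1 • w) := by rw [smul_smul, inv_mul_cancel₀ hs10, one_smul]
      rw [e4, e2]; module
    set a' := s1⁻¹ * (a - 1) with ha'
    set b' := s1⁻¹ * b with hb'
    have ha0 : a' = 0 := by
      by_contra hne0
      have e5 : (-(a'⁻¹ * b')) • α v ∈ Set.range (fun s : ℂ => α u + s • w) := by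
        refine ⟨-a'⁻¹, ?_⟩
        show α u + (-a'⁻¹) • w = _
        rw [hw']
        have e6 : α u + (-a'⁻¹) • (a' • α u + b' • α v) =
            (1 - a'⁻¹ * a') • α u + (-(a'⁻¹ * b')) • α v := by module
        rw [e6, inv_mul_cancel₀ hne0, sub_self, zero_smul, zero_add]
      rw [← hr] at e5
      obtain ⟨t1, ht1⟩ := e5
      have ht1' : α (u + t1 • v) = (-(a'⁻¹ * b')) • α v := ht1
      obtain ⟨t2, ht2⟩ := (hL0 v hv).2 (-(a'⁻¹ * b'))
      rw [← ht2] at ht1'
      have := hinj ht1'
      apply h' (t2 - t1)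
      rw [sub_smul, ← this, add_sub_cancel_right]
    have e7 : α (u + t • v) ∈ Set.range (fun r : ℂ => α (u + r • v)) := ⟨t, rfl⟩
    rw [hr] at e7
    obtain ⟨s, hs⟩ := e7
    refine ⟨s * b', ?_⟩
    have hs' : α u + s • w = α (u + t • v) := hs
    rw [← hs', hw', ha0, zero_smul, zero_add, smul_smul]
  -- (4)
  have h4 : ∀ u v : V, u ≠ 0 → (∀ c : ℂ, v ≠ c • u) → α (u + v) = α u + α v := by
    intro u v hu h
    obtain ⟨hv, h'⟩ := hsymm u v hu h
    obtain ⟨s, hs⟩ := h3 u v hu h 1
    obtain ⟨s', hs'⟩ := h3 v u hv h' 1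
    rw [one_smul] at hs hs'
    rw [add_comm v u] at hs'
    have e1 : (1 - s') • α u = (1 - s) • α v := by
      have e2 : (1 - s') • α u - (1 - s) • α v = (α u + s • α v) - (α v + s' • α u) := by module
      rw [← hs, ← hs', sub_self] at e2
      exact sub_eq_zero.mp e2
    have e3 : 1 - s = 0 := by
      by_contra hne0
      apply h1 u v hu h ((1 - s)⁻¹ * (1 - s'))
      rw [mul_smul, e1, smul_smul, inv_mul_cancel₀ hne0, one_smul]
    have e4 : s = 1 := (sub_eq_zero.mp e3).symm
    rw [hs, e4, one_smul]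
  -- a vector outside a line
  have hout : ∀ u : V, u ≠ 0 → ∃ w, ∀ c : ℂ, w ≠ c • u := by
    intro u hu
    obtain ⟨e1, e2, hli⟩ := hdim
    by_contra hcon
    push Not at hcon
    obtain ⟨a, ha⟩ := hcon e1
    obtain ⟨b, hb⟩ := hcon e2
    have he1 : e1 ≠ 0 := hli.ne_zero 0
    have ha0 : a ≠ 0 := by
      rintro rfl
      rw [zero_smul] at ha
      exact he1 ha
    rw [LinearIndependent.pair_iff' he1] at hli
    apply hli (b * a⁻¹)
    rw [ha, hb, smul_smul, mul_assoc, inv_mul_cancel₀ ha0, mul_one]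
  -- (5)
  have h5 : ∀ u v : V, α (u + v) = α u + α v := by
    intro u v
    by_cases hu : u = 0
    · rw [hu, zero_add, h0, zero_add]
    by_cases hv : v = 0
    · rw [hv, add_zero, h0, add_zero]
    by_cases h : ∀ c : ℂ, v ≠ c • u
    · exact h4 u v hu h
    push Not at h
    obtain ⟨c, hc⟩ := h
    have hc0 : c ≠ 0 := by
      rintro rfl
      rw [zero_smul] at hc
      exact hv hc
    obtain ⟨w, hw⟩ := hout u hu
    have eA : α ((u + v) + w) = α (u + v) + α w := by
      by_cases h1c : 1 + c = 0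
      · have : u + v = 0 := by
          rw [hc]
          have e1 : u + c • u = (1 + c) • u := by module
          rw [e1, h1c, zero_smul]
        rw [this, zero_add, h0, zero_add]
      · have e1 : u + v = (1 + c) • u := by rw [hc]; module
        apply h4
        · rw [e1]; exact smul_ne_zero h1c hu
        · intro d hd
          apply hw (d * (1 + c))
          rw [hd, e1, smul_smul]
    have eB : α (u + (v + w)) = α u + α (v + w) := by
      apply h4 _ _ hu
      intro d hd
      apply hw (d - c)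
      rw [sub_smul, ← hd, ← hc, add_sub_cancel_left]
    have eC : α (v + w) = α v + α w := by
      apply h4 _ _ hv
      intro d hd
      apply hw (d * c)
      rw [hd, hc, smul_smul]
    rw [← add_assoc, eC, ← add_assoc, eA] at eB
    exact add_right_cancel eB
  -- (6)
  obtain ⟨e, e', he⟩ : ∃ u v : V, LinearIndependent ℂ ![u, v] := hdim
  have he0 : e ≠ 0 := he.ne_zero 0
  choose T hT using (hL0 e he0).1
  have hTe : ∀ c d : ℂ, c • α e = d • α e → c = d := by
    intro c d h
    have : (c - d) • α e = 0 := by rw [sub_smul, h, sub_self]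
    rcases smul_eq_zero.mp this with h | h
    · exact sub_eq_zero.mp h
    · exact absurd h (hne e he0)
  have h6 : ∀ u : V, (∀ c : ℂ, u ≠ c • e) → ∀ c : ℂ, α (c • u) = T c • α u := by
    intro u hu c
    obtain ⟨hu0, -⟩ := hsymm e u he0 hu
    obtain ⟨r', hr'⟩ := (hL0 u hu0).1 c
    have heu : e + u ≠ 0 := by
      intro h
      apply hu (-1)
      rw [neg_one_smul]
      exact (neg_eq_of_add_eq_zero_right h).symm
    obtain ⟨r, hr⟩ := (hL0 (e + u) heu).1 c
    rw [h5, smul_add, h5, hT, hr'] at hr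
    have e1 : (T c - r) • α e = (r - r') • α u := by
      have e2 : (T c - r) • α e - (r - r') • α u =
        (T c • α e + r' • α u) - r • (α e + α u) := by module
      rw [hr, sub_self] at e2
      exact sub_eq_zero.mp e2
    have e3 : r - r' = 0 := by
      by_contra hne0
      apply h1 e u he0 hu ((r - r')⁻¹ * (T c - r))
      rw [mul_smul, e1, smul_smul, inv_mul_cancel₀ hne0, one_smul]
    rw [e3, zero_smul] at e1
    have e4 : T c - r = 0 := (smul_eq_zero.mp e1).resolve_right (hne e he0)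
    rw [hr', ← sub_eq_zero.mp e3, ← sub_eq_zero.mp e4]
  have h7 : ∀ (c : ℂ) (u : V), α (c • u) = T c • α u := by
    intro c u
    by_cases hu : ∀ d : ℂ, u ≠ d • e
    · exact h6 u hu c
    push Not at hu
    obtain ⟨d, hd⟩ := hu
    obtain ⟨w, hw⟩ := hout e he0
    have hwu : ∀ a : ℂ, w + u ≠ a • e := by
      intro a ha
      apply hw (a - d)
      rw [sub_smul, ← ha, ← hd, add_sub_cancel_right]
    have e1 := h6 (w + u) hwu c
    rw [smul_add, h5, h5, h6 w hw c, smul_add] at e1
    exact add_left_cancel e1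
  let τ0 : ℂ →+* ℂ :=
    { toFun := T
      map_one' := by
        apply hTe
        rw [← hT, one_smul, one_smul]
      map_mul' := by
        intro c d
        apply hTe
        rw [← hT, mul_smul, h7, hT, smul_smul]
      map_zero' := by
        apply hTe
        rw [← hT, zero_smul, zero_smul, h0]
      map_add' := by
        intro c d
        apply hTe
        rw [← hT, add_smul, h5, hT, hT, add_smul] }
  have hbij : Function.Bijective τ0 := by
    constructor
    · intro c d h
      have h' : T c = T d := h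
      have e1 : α (c • e) = α (d • e) := by rw [hT, hT, h']
      have e2 := hinj e1
      have e3 : (c - d) • e = 0 := by rw [sub_smul, e2, sub_self]
      rcases smul_eq_zero.mp e3 with h | h
      · exact sub_eq_zero.mp h
      · exact absurd h he0
    · intro s
      obtain ⟨t, ht⟩ := (hL0 e he0).2 s
      refine ⟨t, ?_⟩
      apply hTe
      rw [← ht]
      exact (hT t).symm
  exact ⟨RingEquiv.ofBijective τ0 hbij, h5, fun c u => h7 c u⟩

theorem ftpg {E F : Type*} [AddCommGroup E] [Module ℂ E] [AddCommGroup F] [Module ℂ F]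
    (h3 : ∃ v : Fin 3 → E, LinearIndependent ℂ v) (p : E → F)
    (hp0 : ∀ x, x ≠ 0 → p x ≠ 0)
    (hproj : ∀ x (c : ℂ), x ≠ 0 → c ≠ 0 → ∃ d : ℂ, p (c • x) = d • p x)
    (hinj : ∀ x x', x ≠ 0 → x' ≠ 0 → (∃ d : ℂ, p x' = d • p x) → ∃ c : ℂ, x' = c • x)
    (hsurj : ∀ y : F, y ≠ 0 → ∃ x, x ≠ 0 ∧ ∃ d : ℂ, y = d • p x)
    (hcol : ∀ x x' z, x ≠ 0 → x' ≠ 0 → z ≠ 0 →
      (z ∈ Submodule.span ℂ {x, x'} ↔ p z ∈ Submodule.span ℂ {p x, p x'}))
    (f0 : E →ₗ[ℂ] ℂ) (g0 : F →ₗ[ℂ] ℂ) (hf0 : f0 ≠ 0)
    (hfg : ∀ x, x ≠ 0 → (g0 (p x) = 0 ↔ f0 x = 0)) :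
    ∃ (τ : ℂ ≃+* ℂ) (S : E ≃+ F), (∀ (c : ℂ) x, S (c • x) = τ c • S x) ∧
      ∀ x, x ≠ 0 → ∃ d : ℂ, d ≠ 0 ∧ S x = d • p x := by
  classical
  obtain ⟨x0, hx0⟩ : ∃ x0, f0 x0 = 1 := by
    by_contra hcon
    push Not at hcon
    apply hf0
    ext x
    by_contra hx
    apply hcon ((f0 x)⁻¹ • x)
    rw [map_smul, smul_eq_mul, inv_mul_cancel₀ hx]
  set H := LinearMap.ker f0 with hH
  let π : E →ₗ[ℂ] H := LinearMap.codRestrict H (LinearMap.id - f0.smulRight x0) (by
    intro x
    rw [hH, LinearMap.mem_ker]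
    show f0 (x - f0 x • x0) = 0
    rw [map_sub, map_smul, hx0, smul_eq_mul, mul_one, sub_self])
  have hπ : ∀ x, (π x : E) = x - f0 x • x0 := fun x => rfl
  have hfH : ∀ v : H, f0 (v : E) = 0 := fun v => LinearMap.mem_ker.mp v.2
  have hπH : ∀ v : H, π (v : E) = v := by
    intro v
    apply Subtype.ext
    rw [hπ, hfH, zero_smul, sub_zero]
  have hdimH : ∃ u v : H, LinearIndependent ℂ ![u, v] := by
    by_contra hcon
    push Not at hcon
    have hex : ∃ a : H, ∀ b : H, ∃ c : ℂ, b = c • a := by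
      by_cases hz : ∀ b : H, b = 0
      · exact ⟨0, fun b => ⟨0, by rw [hz b, smul_zero]⟩⟩
      push Not at hz
      obtain ⟨a, ha⟩ := hz
      refine ⟨a, fun b => ?_⟩
      by_contra hb
      apply hcon a b
      rw [LinearIndependent.pair_iff' ha]
      intro c hc
      exact hb ⟨c, hc.symm⟩
    obtain ⟨a, ha⟩ := hex
    obtain ⟨v, hv⟩ := h3
    have hspan : Submodule.span ℂ ((({(a : E), x0} : Finset E)) : Set E) = ⊤ := by
      rw [eq_top_iff]
      rintro x -
      obtain ⟨c, hc⟩ := ha (π x)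
      have e1 : x = c • (a : E) + f0 x • x0 := by
        have e2 : (π x : E) = c • (a : E) := by rw [hc]; rfl
        rw [← e2, hπ, sub_add_cancel]
      rw [e1]
      apply Submodule.add_mem
      · exact Submodule.smul_mem _ _ (Submodule.subset_span (by simp))
      · exact Submodule.smul_mem _ _ (Submodule.subset_span (by simp))
    have hle := linearIndependent_le_span_finset v hv _ hspan
    have hle2 : (({(a : E), x0} : Finset E)).card ≤ 2 := Finset.card_le_two
    rw [Cardinal.mk_fin] at hle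
    have hle3 : 3 ≤ (({(a : E), x0} : Finset E)).card := by exact_mod_cast hle
    omega
  -- the normalised map
  have hxv : ∀ v : H, f0 (x0 + (v : E)) = 1 := by
    intro v
    rw [map_add, hx0, hfH, add_zero]
  have hxv0 : ∀ v : H, x0 + (v : E) ≠ 0 := by
    intro v h
    have := hxv v
    rw [h, map_zero] at this
    exact zero_ne_one this
  have hgv : ∀ v : H, g0 (p (x0 + (v : E))) ≠ 0 := by
    intro v h
    rw [hfg _ (hxv0 v), hxv] at h
    exact one_ne_zero h
  set β : H → F := fun v => (g0 (p (x0 + (v : E))))⁻¹ • p (x0 + (v : E)) with hβ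
  have hβd : ∀ v : H, β v = (g0 (p (x0 + (v : E))))⁻¹ • p (x0 + (v : E)) := fun v => rfl
  clear_value β
  have hβ1 : ∀ v, g0 (β v) = 1 := by
    intro v
    rw [hβd, map_smul, smul_eq_mul, inv_mul_cancel₀ (hgv v)]
  -- anything parallel to `p (x0 + v)` and normalised is `β v`
  have hβu : ∀ (v : H) (d : ℂ), g0 (d • p (x0 + (v : E))) = 1 → d • p (x0 + (v : E)) = β v := by
    intro v d h
    rw [hβd]
    congr 1
    rw [map_smul, smul_eq_mul] at h
    exact eq_inv_of_mul_eq_one_left h
  have hpβ : ∀ v : H, p (x0 + (v : E)) = g0 (p (x0 + (v : E))) • β v := by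
    intro v
    rw [hβd, smul_smul, mul_inv_cancel₀ (hgv v), one_smul]
  have hgw : ∀ w : H, w ≠ 0 → g0 (p (w : E)) = 0 := by
    intro w hw
    rw [hfg _ (by simpa using hw), hfH]
  have hβline : ∀ v w : H, w ≠ 0 →
      Set.range (fun t : ℂ => β (v + t • w)) = Set.range (fun s : ℂ => β v + s • p (w : E)) := by
    intro v w hw
    have hwE : (w : E) ≠ 0 := by simpa using hw
    ext y
    constructor
    · rintro ⟨t, rfl⟩
      show β (v + t • w) ∈ _
      have e1 : x0 + ((v + t • w : H) : E) ∈ Submodule.span ℂ {x0 + (v : E), (w : E)} := by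
        rw [Submodule.mem_span_pair]
        refine ⟨1, t, ?_⟩
        rw [one_smul, Submodule.coe_add, Submodule.coe_smul, add_assoc]
      rw [hcol _ _ _ (hxv0 v) hwE (hxv0 _), Submodule.mem_span_pair] at e1
      obtain ⟨a, b, hab⟩ := e1
      have e2 : β (v + t • w) = ((g0 (p (x0 + ((v + t • w : H) : E))))⁻¹ * a *
          g0 (p (x0 + (v : E)))) • β v + ((g0 (p (x0 + ((v + t • w : H) : E))))⁻¹ * b) •
          p (w : E) := by
        rw [mul_smul _ (g0 (p (x0 + (v : E)))), ← hpβ, hβd (v + t • w)]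
        nth_rewrite 2 [← hab]
        module
      have e3 := hβ1 (v + t • w)
      rw [e2, map_add, map_smul, map_smul, hβ1, hgw w hw, smul_zero, add_zero, smul_eq_mul,
        mul_one] at e3
      refine ⟨(g0 (p (x0 + ((v + t • w : H) : E))))⁻¹ * b, ?_⟩
      show β v + _ = _
      rw [e2, e3, one_smul]
    · rintro ⟨s, rfl⟩
      show β v + s • p (w : E) ∈ _
      have hg1 : g0 (β v + s • p (w : E)) = 1 := by
        rw [map_add, map_smul, hβ1, hgw w hw, smul_zero, add_zero]
      have hy0 : β v + s • p (w : E) ≠ 0 := by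
        intro h
        rw [h, map_zero] at hg1
        exact zero_ne_one hg1
      obtain ⟨z, hz, d, hd⟩ := hsurj _ hy0
      have hd0 : d ≠ 0 := by
        rintro rfl
        rw [zero_smul] at hd
        exact hy0 hd
      have hpz : p z ∈ Submodule.span ℂ {p (x0 + (v : E)), p (w : E)} := by
        rw [Submodule.mem_span_pair]
        refine ⟨d⁻¹ * (g0 (p (x0 + (v : E))))⁻¹, d⁻¹ * s, ?_⟩
        have e1 : p z = d⁻¹ • (β v + s • p (w : E)) := by
          rw [hd, smul_smul, inv_mul_cancel₀ hd0, one_smul]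
        rw [e1, hβd]
        module
      rw [← hcol _ _ _ (hxv0 v) hwE hz, Submodule.mem_span_pair] at hpz
      obtain ⟨a, b, hab⟩ := hpz
      have hfz : f0 z = a := by
        rw [← hab, map_add, map_smul, map_smul, hxv, hfH, smul_zero, add_zero, smul_eq_mul,
          mul_one]
      have ha0 : a ≠ 0 := by
        intro ha
        rw [ha, ← hfg z hz] at hfz
        rw [hd, map_smul, hfz, smul_zero] at hg1
        exact zero_ne_one hg1
      have hz' : z = a • (x0 + ((v + (a⁻¹ * b) • w : H) : E)) := by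
        rw [← hab, Submodule.coe_add, Submodule.coe_smul]
        have e1 : a • (x0 + ((v : E) + (a⁻¹ * b) • (w : E))) =
          a • (x0 + (v : E)) + (a * a⁻¹ * b) • (w : E) := by module
        rw [e1, mul_inv_cancel₀ ha0, one_mul]
      obtain ⟨d', hd'⟩ := hproj _ a (hxv0 (v + (a⁻¹ * b) • w)) ha0
      rw [← hz'] at hd'
      refine ⟨a⁻¹ * b, ?_⟩
      show β (v + (a⁻¹ * b) • w) = _
      rw [hd, hd', smul_smul]
      symm
      apply hβu
      rw [mul_smul, ← hd', ← hd]
      exact hg1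
  have hβinj : Function.Injective β := by
    intro v v' h
    obtain ⟨c, hc⟩ := hinj _ _ (hxv0 v) (hxv0 v')
      ⟨g0 (p (x0 + (v' : E))) * (g0 (p (x0 + (v : E))))⁻¹, by
        rw [mul_smul, ← hβd, h]
        exact hpβ v'⟩
    have hc1 : c = 1 := by
      have := hxv v'
      rw [hc, map_smul, hxv, smul_eq_mul, mul_one] at this
      exact this
    rw [hc1, one_smul] at hc
    apply Subtype.ext
    exact (add_left_cancel hc).symm
  obtain ⟨τ, hadd, hsmul⟩ := ftag hdimH (fun v => β v - β 0) (by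
      intro v v' h
      have h' : β v - β 0 = β v' - β 0 := h
      exact hβinj (sub_left_injective h'))
    (by show β 0 - β 0 = 0; rw [sub_self])
    (by
      intro u w hw
      refine ⟨p (w : E), hp0 _ (by simpa using hw), ?_⟩
      have h := hβline u w hw
      ext y
      constructor
      · rintro ⟨t, rfl⟩
        have h1 : β (u + t • w) ∈ Set.range (fun s : ℂ => β u + s • p (w : E)) := by
          rw [← h]; exact ⟨t, rfl⟩
        obtain ⟨s, hs⟩ := h1
        have hs' : β u + s • p (w : E) = β (u + t • w) := hs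
        refine ⟨s, ?_⟩
        show β u - β 0 + s • p (w : E) = β (u + t • w) - β 0
        rw [← hs']; abel
      · rintro ⟨s, rfl⟩
        have h1 : β u + s • p (w : E) ∈ Set.range (fun t : ℂ => β (u + t • w)) := by
          rw [h]; exact ⟨s, rfl⟩
        obtain ⟨t, ht⟩ := h1
        have ht' : β (u + t • w) = β u + s • p (w : E) := ht
        refine ⟨t, ?_⟩
        show β (u + t • w) - β 0 = β u - β 0 + s • p (w : E)
        rw [ht']; abel)
  obtain ⟨α, hαd⟩ : ∃ α : H → F, ∀ v, α v = β v - β 0 := ⟨_, fun v => rfl⟩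
  replace hadd : ∀ u v, α (u + v) = α u + α v := by
    intro u v; rw [hαd, hαd, hαd]; exact hadd u v
  replace hsmul : ∀ (c : ℂ) u, α (c • u) = τ c • α u := by
    intro c u; rw [hαd, hαd]; exact hsmul c u
  set S0 : E → F := fun x => α (π x) + τ (f0 x) • β 0 with hS0
  have hS0add : ∀ x y, S0 (x + y) = S0 x + S0 y := by
    intro x y
    show α (π (x + y)) + τ (f0 (x + y)) • β 0 =
      (α (π x) + τ (f0 x) • β 0) + (α (π y) + τ (f0 y) • β 0)
    rw [map_add π, map_add f0, hadd, map_add τ, add_smul]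
    abel
  have hS0smul : ∀ (c : ℂ) x, S0 (c • x) = τ c • S0 x := by
    intro c x
    show α (π (c • x)) + τ (f0 (c • x)) • β 0 = τ c • (α (π x) + τ (f0 x) • β 0)
    rw [map_smul π, map_smul f0, hsmul, smul_eq_mul, map_mul, smul_add, smul_smul]
  have hS0p : ∀ x, x ≠ 0 → ∃ d : ℂ, d ≠ 0 ∧ S0 x = d • p x := by
    intro x hx
    by_cases hc : f0 x = 0
    · -- `x` in `H`
      set w : H := ⟨x, LinearMap.mem_ker.mpr hc⟩ with hw
      have hw0 : w ≠ 0 := by
        intro h
        apply hx
        have := congrArg Subtype.val h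
        exact this
      have hπw : π x = w := hπH w
      have h1 : β (0 + (1 : ℂ) • w) ∈ Set.range (fun s : ℂ => β 0 + s • p (w : E)) := by
        rw [← hβline 0 w hw0]; exact ⟨1, rfl⟩
      obtain ⟨s, hs⟩ := h1
      have hs' : β 0 + s • p (w : E) = β w := by
        rw [zero_add, one_smul] at hs
        exact hs
      have hSx : S0 x = s • p x := by
        show α (π x) + τ (f0 x) • β 0 = _
        rw [hc, map_zero, zero_smul, add_zero, hπw, hαd, ← hs', add_sub_cancel_left]
      refine ⟨s, ?_, hSx⟩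
      rintro rfl
      rw [zero_smul, add_zero] at hs'
      exact hw0 (hβinj hs').symm
    · set v : H := (f0 x)⁻¹ • π x with hv
      have hπv : π x = f0 x • v := by
        rw [hv, smul_smul, mul_inv_cancel₀ hc, one_smul]
      have hxv' : x = f0 x • (x0 + (v : E)) := by
        have e1 : (π x : E) = f0 x • (v : E) := by rw [hπv]; rfl
        rw [smul_add, ← e1, hπ]
        abel
      have hS : S0 x = τ (f0 x) • β v := by
        show α (π x) + τ (f0 x) • β 0 = _
        rw [hπv, hsmul, ← smul_add]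
        congr 1
        rw [hαd, sub_add_cancel]
      obtain ⟨d, hd⟩ := hproj _ (f0 x) (hxv0 v) hc
      rw [← hxv'] at hd
      have hd0 : d ≠ 0 := by
        rintro rfl
        rw [zero_smul] at hd
        exact hp0 x hx hd
      refine ⟨τ (f0 x) * ((g0 (p (x0 + (v : E))))⁻¹ * d⁻¹), ?_, ?_⟩
      · refine mul_ne_zero ?_ (mul_ne_zero (inv_ne_zero (hgv v)) (inv_ne_zero hd0))
        intro h
        apply hc
        exact (map_eq_zero_iff τ τ.injective).mp h
      · rw [hS, mul_smul]
        congr 1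
        rw [hβd, mul_smul, hd, smul_smul d⁻¹ d, inv_mul_cancel₀ hd0, one_smul]
  have hbij : Function.Bijective (AddMonoidHom.mk' S0 hS0add) := by
    constructor
    · rw [injective_iff_map_eq_zero]
      intro x hx
      by_contra h
      obtain ⟨d, hd, hd'⟩ := hS0p x h
      have : S0 x = 0 := hx
      rw [hd'] at this
      rcases smul_eq_zero.mp this with h1 | h1
      · exact hd h1
      · exact hp0 x h h1
    · intro y
      by_cases hy : y = 0
      · exact ⟨0, by rw [map_zero, hy]⟩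
      obtain ⟨x, hx, d, hd⟩ := hsurj y hy
      obtain ⟨d', hd', hS⟩ := hS0p x hx
      refine ⟨τ.symm (d * d'⁻¹) • x, ?_⟩
      show S0 (τ.symm (d * d'⁻¹) • x) = y
      rw [hS0smul, RingEquiv.apply_symm_apply, hS, smul_smul, mul_assoc, inv_mul_cancel₀ hd',
        mul_one, hd]
  exact ⟨τ, AddEquiv.ofBijective _ hbij, fun c x => hS0smul c x, fun x hx => hS0p x hx⟩

end Pool.Agent.H.MP_bb4c62_an.helper6.NL
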