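import Pool.Agent.H.MP_bb4c62_an.helper6.NDefs

/-!
The line property with integer parameters forces finite rank.
-/

namespace Pool.Agent.H.MP_bb4c62_an.helper6.NL

open Complex Metric Set Filter Topology
open Pool.Agent.H.MP_bb4c62_an.helper6.Perturb
open Pool.Agent.H.MP_bb4c62_an.helper6.Gadgets
open Pool.Agent.H.MP_bb4c62_an.helper6.Picard

variable {X : Type*} [NormedAddCommGroup X] [NormedSpace ℂ X]

theorem NStar_gadget_three [CompleteSpace X] {A : X →L[ℂ] X} (hA : spectralRadius ℂ A = 0)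
    (x : Fin 3 → X) (hA2 : ∀ j, A (A (x j)) = 0)
    (hli : LinearIndependent ℂ (fun j => A (x j))) :
    ∃ V : X →L[ℂ] X, spectralRadius ℂ V = 0 ∧ spectralRadius ℂ (V + A) = 0 ∧
      spectralRadius ℂ (V - A) = 0 ∧ spectralRadius ℂ (V + (2 : ℂ) • A) ≠ 0 := by
  obtain ⟨f, h0, h1⟩ := exists_strand_functionals x hA2 hli
  have hcyc : ∀ j0 j : Fin 3, ∃ n : ℕ, ((finRotate 3) ^ n) j0 = j := by
    have : ∀ j0 j : Fin 3, ∃ n : Fin 3, ((finRotate 3) ^ (n : ℕ)) j0 = j := by decide
    intro j0 j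
    obtain ⟨n, hn⟩ := this j0 j
    exact ⟨n, hn⟩
  refine ⟨strand A (finRotate 3) x f ![-1, 1, 0], ?_, ?_, ?_, ?_⟩
  · have := strand_qn (finRotate 3) 2 (hcyc 2) hA x f ![-1, 1, 0] hA2 h0 h1 (τ := 0) (by simp)
    simpa using this
  · have := strand_qn (finRotate 3) 0 (hcyc 0) hA x f ![-1, 1, 0] hA2 h0 h1 (τ := 1) (by simp)
    rw [one_smul, add_comm] at this
    exact this
  · have := strand_qn (finRotate 3) 1 (hcyc 1) hA x f ![-1, 1, 0] hA2 h0 h1 (τ := -1) (by simp)
    rw [neg_one_smul, add_comm, ← sub_eq_add_neg] at this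
    exact this
  · have hx : x 0 ≠ 0 := by
      intro h
      have := hli.ne_zero 0
      apply this
      show A (x 0) = 0
      rw [h, map_zero]
    rw [add_comm]
    refine not_qn_of_pow_eigen (n := 6) hx (μ := 6) (by norm_num) (by norm_num) ?_
    have hs := strand_step (finRotate 3) x f ![-1, 1, 0] hA2 h0 h1 2
    have h6 : ((2 : ℂ) • A + strand A (finRotate 3) x f ![-1, 1, 0]) ^ 6 =
        ((2 : ℂ) • A + strand A (finRotate 3) x f ![-1, 1, 0]) ^ 2 *
        (((2 : ℂ) • A + strand A (finRotate 3) x f ![-1, 1, 0]) ^ 2 *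
        ((2 : ℂ) • A + strand A (finRotate 3) x f ![-1, 1, 0]) ^ 2) := by
      rw [← pow_add, ← pow_add]
    rw [h6]
    set S := ((2 : ℂ) • A + strand A (finRotate 3) x f ![-1, 1, 0]) ^ 2
    show S (S (S (x 0))) = _
    have r0 : (finRotate 3) 0 = 1 := by decide
    have r1 : (finRotate 3) 1 = 2 := by decide
    have r2 : (finRotate 3) 2 = 0 := by decide
    rw [hs 0, r0, map_smul, map_smul, hs 1, r1, map_smul, hs 2, r2]
    simp only [smul_smul]
    congr 1
    simp
    norm_num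

theorem NStar_gadget_big [CompleteSpace X] {A : X →L[ℂ] X} (hA : spectralRadius ℂ A = 0)
    (x : X) (f : X →L[ℂ] ℂ) (hf : ∀ k ≤ 8, f ((A ^ k) x) = if k = 5 then 1 else 0) :
    ∃ V : X →L[ℂ] X, spectralRadius ℂ V = 0 ∧ spectralRadius ℂ (V + A) = 0 ∧
      spectralRadius ℂ (V - A) = 0 ∧ (spectralRadius ℂ (V + (2 : ℂ) • A) ≠ 0 ∨
        spectralRadius ℂ (V + (3 : ℂ) • A) ≠ 0) := by
  obtain ⟨ω, hω⟩ := exists_cube_root
  have g0 : f ((A ^ 0) x) = 0 := by rw [hf 0 (by norm_num)]; simp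
  have g1 : f ((A ^ 1) x) = 0 := by rw [hf 1 (by norm_num)]; simp
  have g2 : f ((A ^ 2) x) = 0 := by rw [hf 2 (by norm_num)]; simp
  have g3 : f ((A ^ 3) x) = 0 := by rw [hf 3 (by norm_num)]; simp
  have g4 : f ((A ^ 4) x) = 0 := by rw [hf 4 (by norm_num)]; simp
  have g5 : f ((A ^ 5) x) = 1 := by rw [hf 5 (by norm_num)]; simp
  have g6 : f ((A ^ 6) x) = 0 := by rw [hf 6 (by norm_num)]; simp
  have g7 : f ((A ^ 7) x) = 0 := by rw [hf 7 (by norm_num)]; simp
  have g8 : f ((A ^ 8) x) = 0 := by rw [hf 8 (by norm_num)]; simp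
  have gg0 : f x = 0 := by simpa using g0
  have pp : ∀ (i j : ℕ) (w : X), (A ^ i) ((A ^ j) w) = (A ^ (i + j)) w := by
    intro i j w
    rw [pow_add]; rfl
  have pA : ∀ (i : ℕ) (w : X), (A ^ i) (A w) = (A ^ (i + 1)) w := by
    intro i w
    rw [pow_succ]; rfl
  have pA' : ∀ (i : ℕ) (w : X), A ((A ^ i) w) = (A ^ (i + 1)) w := by
    intro i w
    rw [pow_succ']; rfl
  set V : X →L[ℂ] X := ten x (f.comp (A ^ 4)) + ω • ten ((A ^ 2) x) (f.comp (A ^ 2))
    + ten (ω ^ 2 • (A ^ 4) x - x) f with hV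
  have hVapp : ∀ ξ, V ξ = f ((A ^ 4) ξ) • x + ω • (f ((A ^ 2) ξ) • (A ^ 2) x)
      + f ξ • (ω ^ 2 • (A ^ 4) x - x) := fun ξ => rfl
  have hVapp' : ∀ ξ, V ξ = (f ((A ^ 4) ξ) - f ξ) • x + (ω * f ((A ^ 2) ξ)) • (A ^ 2) x
      + (ω ^ 2 * f ξ) • (A ^ 4) x := by
    intro ξ
    rw [hVapp, smul_sub, smul_smul, smul_smul, sub_smul, mul_comm (f ξ)]
    abel
  have hcomp : IsCompactOperator V :=
    ((isCompact_ten _ _).add ((isCompact_ten _ _).smul _)).add (isCompact_ten _ _)
  have hVV : V * V = 0 := by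
    ext ξ
    show V (V ξ) = 0
    have k0 : f (V ξ) = 0 := by
      rw [hVapp']
      simp only [map_add, map_smul, smul_eq_mul, gg0, g2, g4, mul_zero, add_zero]
    have k2 : f ((A ^ 2) (V ξ)) = 0 := by
      rw [hVapp']
      simp only [map_add, map_smul, smul_eq_mul, pp, g2, g4, g6, mul_zero, add_zero]
    have k4 : f ((A ^ 4) (V ξ)) = 0 := by
      rw [hVapp']
      simp only [map_add, map_smul, smul_eq_mul, pp, g4, g6, g8, mul_zero, add_zero]
    rw [hVapp' (V ξ), k0, k2, k4]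
    simp
  -- the resolvent vector
  have hres : ∀ z : ℂ, ∀ y : X, y - z • A y = x →
      ∀ k : ℕ, (A ^ k) y = (A ^ k) x + z • (A ^ (k + 1)) y := by
    intro z y hy k
    rw [← hy, map_sub, map_smul, pA]; abel
  have hrel : ∀ z : ℂ, ∀ y : X, y - z • A y = x →
      f y = z * f ((A ^ 1) y) ∧ f ((A ^ 1) y) = z * f ((A ^ 2) y) ∧
      f ((A ^ 2) y) = z * f ((A ^ 3) y) ∧ f ((A ^ 3) y) = z * f ((A ^ 4) y) ∧
      f ((A ^ 4) y) = z * f ((A ^ 5) y) ∧ f ((A ^ 5) y) = 1 + z * f ((A ^ 6) y) ∧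
      f ((A ^ 6) y) = z * f ((A ^ 7) y) ∧ f ((A ^ 7) y) = z * f ((A ^ 8) y) := by
    intro z y hy
    have h := hres z y hy
    refine ⟨?_, ?_, ?_, ?_, ?_, ?_, ?_, ?_⟩
    · have h0 := h 0
      have : f y = f ((A ^ 0) y) := by simp
      rw [this, h0, map_add, g0, map_smul, smul_eq_mul, zero_add]
    · conv_lhs => rw [h 1, map_add, g1, map_smul, smul_eq_mul, zero_add]
    · conv_lhs => rw [h 2, map_add, g2, map_smul, smul_eq_mul, zero_add]
    · conv_lhs => rw [h 3, map_add, g3, map_smul, smul_eq_mul, zero_add]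
    · conv_lhs => rw [h 4, map_add, g4, map_smul, smul_eq_mul, zero_add]
    · conv_lhs => rw [h 5, map_add, g5, map_smul, smul_eq_mul]
    · conv_lhs => rw [h 6, map_add, g6, map_smul, smul_eq_mul, zero_add]
    · conv_lhs => rw [h 7, map_add, g7, map_smul, smul_eq_mul, zero_add]
  have hyex : ∀ z : ℂ, ∃ y : X, y - z • A y = x ∧ y = Ring.inverse (1 - z • A) x := by
    intro z
    refine ⟨Ring.inverse (1 - z • A) x, ?_, rfl⟩
    have hu := (qn_iff A).mp hA z
    have h3 : ((1 - z • A) * Ring.inverse (1 - z • A)) x = x := by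
      rw [Ring.mul_inverse_cancel _ hu]; rfl
    exact h3
  have hid : ∀ (z μ τ : ℂ), μ ≠ 0 → z * μ = τ → ∀ y : X, y - z • A y = x → ∀ p q r : ℂ,
      μ • (μ⁻¹ • ((p - r) • y + (ω * q) • (A ^ 2) y + (ω ^ 2 * r) • (A ^ 4) y)) -
      τ • A (μ⁻¹ • ((p - r) • y + (ω * q) • (A ^ 2) y + (ω ^ 2 * r) • (A ^ 4) y)) =
      (p - r) • x + (ω * q) • (A ^ 2) x + (ω ^ 2 * r) • (A ^ 4) x := by
    intro z μ τ hμ hzμ y hy p q r
    have hyk : ∀ k : ℕ, (A ^ k) y - z • A ((A ^ k) y) = (A ^ k) x := by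
      intro k
      rw [pA', hres z y hy k]; abel
    simp only [map_add, map_smul, smul_add, smul_smul]
    have e0 : x = y - z • A y := hy.symm
    have e2 := (hyk 2).symm
    have e4 := (hyk 4).symm
    rw [e2, e4]
    conv_rhs => rw [e0]
    rw [← hzμ]
    have f1 : μ * (μ⁻¹ * (p - r)) = p - r := by field_simp
    have f2 : μ * (μ⁻¹ * (ω * q)) = ω * q := by field_simp
    have f3 : μ * (μ⁻¹ * (ω ^ 2 * r)) = ω ^ 2 * r := by field_simp
    have f4 : z * μ * (μ⁻¹ * (p - r)) = (p - r) * z := by field_simp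
    have f5 : z * μ * (μ⁻¹ * (ω * q)) = (ω * q) * z := by field_simp
    have f6 : z * μ * (μ⁻¹ * (ω ^ 2 * r)) = (ω ^ 2 * r) * z := by field_simp
    rw [f1, f2, f3, f4, f5, f6]
    simp only [smul_sub, smul_smul]
    abel
  have hω3 : ω ^ 3 = 1 := by linear_combination (ω - 1) * hω
  -- the two directions
  have key : ∀ τ : ℂ, τ ≠ 0 → τ ^ 2 = 1 → spectralRadius ℂ (τ • A + V) = 0 := by
    intro τ hτ0 hτ
    apply qn_add_of_no_eigen (qn_smul hA τ) hcomp
    intro μ hμ ξ hξ
    have hξ' : τ • A ξ + V ξ = μ • ξ := hξ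
    set z : ℂ := τ * μ⁻¹ with hz
    have hzμ : z * μ = τ := by rw [hz]; field_simp
    have hz0 : z ≠ 0 := by
      rintro h
      rw [h, zero_mul] at hzμ
      exact hτ0 hzμ.symm
    obtain ⟨y, hy, -⟩ := hyex z
    set p := f ((A ^ 4) ξ) with hp
    set q := f ((A ^ 2) ξ) with hq
    set r := f ξ with hr
    set η : X := μ⁻¹ • ((p - r) • y + (ω * q) • (A ^ 2) y + (ω ^ 2 * r) • (A ^ 4) y) with hη
    have hμη : μ • η - τ • A η = V ξ := by
      rw [hVapp', hη]
      exact hid z μ τ hμ hzμ y hy p q r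
    have hξη : ξ = η := by
      have h2 : τ • A (ξ - η) = μ • (ξ - η) := by
        rw [map_sub, smul_sub, smul_sub]
        have h4 : μ • ξ - τ • A ξ = μ • η - τ • A η := by
          rw [hμη, ← hξ']; abel
        have : μ • ξ - μ • η = (μ • ξ - τ • A ξ) - (μ • η - τ • A η) + (τ • A ξ - τ • A η) := by
          abel
        rw [this, h4]; abel
      exact sub_eq_zero.mp (inj_of_qn hA hμ h2)
    obtain ⟨r0, r1, r2, r3, r4, r5, r6, r7⟩ := hrel z y hy
    have er : μ * r = (p - r) * f y + (ω * q) * f ((A ^ 2) y) + (ω ^ 2 * r) * f ((A ^ 4) y) := by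
      have h1 : f ξ = f η := by rw [← hξη]
      rw [← hr, hη, map_smul, map_add, map_add, map_smul, map_smul, map_smul] at h1
      simp only [smul_eq_mul] at h1
      have h2 := congrArg (fun t => μ * t) h1
      simp only [mul_inv_cancel_left₀ hμ] at h2
      exact h2
    have eq : μ * q = (p - r) * f ((A ^ 2) y) + (ω * q) * f ((A ^ 4) y)
        + (ω ^ 2 * r) * f ((A ^ 6) y) := by
      have h1 : f ((A ^ 2) ξ) = f ((A ^ 2) η) := by rw [← hξη]
      rw [← hq, hη] at h1
      simp only [map_smul, map_add, pp, smul_eq_mul] at h1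
      have h2 := congrArg (fun t => μ * t) h1
      simp only [mul_inv_cancel_left₀ hμ] at h2
      exact h2
    have ep : μ * p = (p - r) * f ((A ^ 4) y) + (ω * q) * f ((A ^ 6) y)
        + (ω ^ 2 * r) * f ((A ^ 8) y) := by
      have h1 : f ((A ^ 4) ξ) = f ((A ^ 4) η) := by rw [← hξη]
      rw [← hp, hη] at h1
      simp only [map_smul, map_add, pp, smul_eq_mul] at h1
      have h2 := congrArg (fun t => μ * t) h1
      simp only [mul_inv_cancel_left₀ hμ] at h2
      exact h2
    have hr0 : μ ^ 3 * z ^ 4 * r = 0 ∧ (μ - ω ^ 2 * z) * r = z ^ 2 * μ * q ∧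
        (μ - ω * z) * q = z ^ 2 * μ * p := by
      have hz2 : z ^ 2 * μ ^ 2 = 1 := by rw [← hτ, ← hzμ]; ring
      clear_value η p q r z
      generalize f ((A ^ 8) y) = h8 at *
      generalize f ((A ^ 7) y) = h7 at *
      generalize f ((A ^ 6) y) = h6 at *
      generalize f ((A ^ 5) y) = h5 at *
      generalize f ((A ^ 4) y) = h4 at *
      generalize f ((A ^ 3) y) = h3 at *
      generalize f ((A ^ 2) y) = h2 at *
      generalize f ((A ^ 1) y) = h1 at *
      generalize f y = h0 at *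
      subst r7
      subst r6
      subst r5
      subst r4
      subst r3
      subst r2
      subst r1
      subst r0
      have E1 : (μ - ω ^ 2 * z) * r = z ^ 2 * μ * q := by
        linear_combination er - z ^ 2 * eq
      have E2 : (μ - ω * z) * q = z ^ 2 * μ * p := by
        linear_combination eq - z ^ 2 * ep
      refine ⟨?_, E1, E2⟩
      linear_combination μ ^ 2 * z ^ 4 * er - (z ^ 5 + z ^ 8 * h8) * z ^ 2 * μ * E2
        - (z ^ 5 + z ^ 8 * h8) * (μ - ω * z) * E1 - (z ^ 5 + z ^ 8 * h8) * ω * μ * E1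
        + (z ^ 5 + z ^ 8 * h8) * r * ((μ ^ 2 - z * μ) * hω + (z ^ 2 - z * μ) * hω3 - z ^ 2 * hz2)
    obtain ⟨hr0, E1, E2⟩ := hr0
    have hr00 : r = 0 := by
      rcases mul_eq_zero.mp hr0 with h | h
      · exact absurd h (mul_ne_zero (pow_ne_zero _ hμ) (pow_ne_zero _ hz0))
      · exact h
    have hq0 : q = 0 := by
      rw [hr00, mul_zero] at E1
      rcases mul_eq_zero.mp E1.symm with h | h
      · exact absurd h (mul_ne_zero (pow_ne_zero _ hz0) hμ)
      · exact h
    have hp0 : p = 0 := by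
      rw [hq0, mul_zero] at E2
      rcases mul_eq_zero.mp E2.symm with h | h
      · exact absurd h (mul_ne_zero (pow_ne_zero _ hz0) hμ)
      · exact h
    rw [hξη, hη, hr00, hq0, hp0]
    simp
  refine ⟨V, qn_of_sq hVV, ?_, ?_, ?_⟩
  · have := key 1 one_ne_zero (by ring)
    rw [one_smul, add_comm] at this
    exact this
  · have := key (-1) (by norm_num) (by ring)
    rw [neg_one_smul, add_comm, ← sub_eq_add_neg] at this
    exact this
  · -- a point where the function does not vanish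
    obtain ⟨z, hz0, hzf⟩ : ∃ z : ℂ, z ≠ 0 ∧ f (Ring.inverse (1 - z • A) x) ≠ 0 := by
      by_contra hcon
      push Not at hcon
      have hcts : Continuous (fun z : ℂ => (f.comp (A ^ 5)) (Ring.inverse (1 - z • A) x)) :=
        (differentiable_resolvent hA x (f.comp (A ^ 5))).continuous
      have hzero : ∀ z ∈ ({0}ᶜ : Set ℂ),
          (fun z : ℂ => (f.comp (A ^ 5)) (Ring.inverse (1 - z • A) x)) z = (fun _ => (0 : ℂ)) z := by
        intro z hz
        have hz0 : z ≠ 0 := hz
        obtain ⟨y, hy, hy'⟩ := hyex z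
        obtain ⟨r0, r1, r2, r3, r4, r5, r6, r7⟩ := hrel z y hy
        have h0 := hcon z hz0
        rw [← hy'] at h0
        show f ((A ^ 5) (Ring.inverse (1 - z • A) x)) = 0
        rw [← hy']
        rw [r1, r2, r3, r4] at r0
        rw [h0] at r0
        have := r0.symm
        simpa [hz0] using this
      have heq := Continuous.ext_on (dense_compl_singleton (0 : ℂ)) hcts continuous_const hzero
      have h1 := congrFun heq 0
      have h2 : f ((A ^ 5) (Ring.inverse (1 - (0 : ℂ) • A) x)) = 0 := h1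
      rw [zero_smul, sub_zero, Ring.inverse_one] at h2
      have h3 : f ((A ^ 5) x) = 0 := h2
      rw [g5] at h3
      exact one_ne_zero h3
    -- the eigenvalue for a given solution of the cubic equation
    have final : ∀ z τ : ℂ, z ≠ 0 → τ ≠ 0 →
        τ ^ 3 = (z * f (Ring.inverse (1 - z • A) x)) * (1 - τ ^ 2) →
        spectralRadius ℂ (V + τ • A) ≠ 0 := by
      intro z τ hz0 hτ0 hτ
      obtain ⟨y, hy, hy'⟩ := hyex z
      rw [← hy'] at hτ
      set μ : ℂ := τ * z⁻¹ with hμd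
      have hμ : μ ≠ 0 := mul_ne_zero hτ0 (inv_ne_zero hz0)
      have hzμ : z * μ = τ := by rw [hμd]; field_simp
      set q : ℂ := (μ - ω ^ 2 * z) / (μ * z ^ 2) with hqd
      set p : ℂ := (μ - ω * z) * q / (μ * z ^ 2) with hpd
      have hq : (μ - ω ^ 2 * z) = z ^ 2 * μ * q := by rw [hqd]; field_simp
      have hp : (μ - ω * z) * q = z ^ 2 * μ * p := by rw [hpd]; field_simp
      have hμ3 : μ ^ 3 * z ^ 2 = f y * (1 - z ^ 2 * μ ^ 2) := by
        have h1 : (z * μ) ^ 3 = z * f y * (1 - (z * μ) ^ 2) := by rw [hzμ]; exact hτ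
        have h2 : z * (μ ^ 3 * z ^ 2) = z * (f y * (1 - z ^ 2 * μ ^ 2)) := by
          linear_combination h1
        exact mul_left_cancel₀ hz0 h2
      obtain ⟨r0, r1, r2, r3, r4, r5, r6, r7⟩ := hrel z y hy
      set ξ : X := μ⁻¹ • ((p - 1) • y + (ω * q) • (A ^ 2) y + (ω ^ 2 * 1) • (A ^ 4) y) with hξ
      have hsys : μ = (p - 1) * f y + (ω * q) * f ((A ^ 2) y) + (ω ^ 2 * 1) * f ((A ^ 4) y) ∧
          μ * q = (p - 1) * f ((A ^ 2) y) + (ω * q) * f ((A ^ 4) y)
            + (ω ^ 2 * 1) * f ((A ^ 6) y) ∧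
          μ * p = (p - 1) * f ((A ^ 4) y) + (ω * q) * f ((A ^ 6) y)
            + (ω ^ 2 * 1) * f ((A ^ 8) y) := by
        clear_value ξ p q μ
        generalize f ((A ^ 8) y) = h8 at *
        generalize f ((A ^ 7) y) = h7 at *
        generalize f ((A ^ 6) y) = h6 at *
        generalize f ((A ^ 5) y) = h5 at *
        generalize f ((A ^ 4) y) = h4 at *
        generalize f ((A ^ 3) y) = h3 at *
        generalize f ((A ^ 2) y) = h2 at *
        generalize f ((A ^ 1) y) = h1 at *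
        generalize f y = h0 at *
        subst r7
        subst r6
        subst r5
        subst r4
        subst r3
        subst r2
        subst r1
        subst r0
        have hA1 : μ ^ 2 * z ^ 4 * μ = μ ^ 2 * z ^ 4 * ((p - 1) *
            (z * (z * (z * (z * (z * (1 + z * (z * (z * h8)))))))) +
            ω * q * (z * (z * (z * (1 + z * (z * (z * h8)))))) +
            ω ^ 2 * 1 * (z * (1 + z * (z * (z * h8))))) := by
          linear_combination z ^ 2 * hμ3 + (z ^ 5 + z ^ 8 * h8) * z ^ 2 * μ * hp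
            + (z ^ 5 + z ^ 8 * h8) * (μ - ω * z) * hq + (z ^ 5 + z ^ 8 * h8) * ω * μ * hq
            - (z ^ 5 + z ^ 8 * h8) * ((μ ^ 2 - z * μ) * hω + (z ^ 2 - z * μ) * hω3)
        have hB1 := mul_left_cancel₀ (mul_ne_zero (pow_ne_zero 2 hμ) (pow_ne_zero 4 hz0)) hA1
        have hB2 : μ * q = (p - 1) * (z * (z * (z * (1 + z * (z * (z * h8)))))) +
            ω * q * (z * (1 + z * (z * (z * h8)))) + ω ^ 2 * 1 * (z * (z * h8)) := by
          apply mul_left_cancel₀ (pow_ne_zero 2 hz0)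
          linear_combination hB1 - hq
        refine ⟨hB1, hB2, ?_⟩
        apply mul_left_cancel₀ (pow_ne_zero 2 hz0)
        linear_combination hB2 - hp
      obtain ⟨s1, s2, s3⟩ := hsys
      have t1 : f ξ = 1 := by
        rw [hξ]
        simp only [map_smul, map_add, smul_eq_mul]
        rw [← s1, inv_mul_cancel₀ hμ]
      have t2 : f ((A ^ 2) ξ) = q := by
        rw [hξ]
        simp only [map_smul, map_add, pp, smul_eq_mul]
        have : (p - 1) * f ((A ^ 2) y) + ω * q * f ((A ^ (2 + 2)) y)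
            + ω ^ 2 * 1 * f ((A ^ (2 + 4)) y) = μ * q := s2.symm
        rw [this, inv_mul_cancel_left₀ hμ]
      have t3 : f ((A ^ 4) ξ) = p := by
        rw [hξ]
        simp only [map_smul, map_add, pp, smul_eq_mul]
        have : (p - 1) * f ((A ^ 4) y) + ω * q * f ((A ^ (4 + 2)) y)
            + ω ^ 2 * 1 * f ((A ^ (4 + 4)) y) = μ * p := s3.symm
        rw [this, inv_mul_cancel_left₀ hμ]
      have hξ0 : ξ ≠ 0 := by
        intro h
        rw [h, map_zero] at t1
        exact zero_ne_one t1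
      refine not_qn_of_eigen hξ0 hμ ?_
      show V ξ + τ • A ξ = μ • ξ
      have h1 := hid z μ τ hμ hzμ y hy p q 1
      rw [← hξ] at h1
      rw [hVapp', t1, t2, t3, ← h1]
      abel
    -- one of the two values is attained
    set G : ℂ → ℂ := fun z => z * f (Ring.inverse (1 - z • A) x) with hG
    have hGd : Differentiable ℂ G := differentiable_id.mul (differentiable_resolvent hA x f)
    have hG0 : G 0 = 0 := by show (0 : ℂ) * _ = 0; rw [zero_mul]
    have hatt : ∃ z : ℂ, G z = -8 / 3 ∨ G z = -27 / 8 := by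
      by_contra hcon
      push Not at hcon
      have hF : Differentiable ℂ (fun z => (G z + 145 / 48) * (48 / 17)) :=
        (hGd.add_const _).mul_const _
      have hp := picard hF (fun w hw => (hcon w).1 (by
        have hw' : (G w + 145 / 48) * (48 / 17) = 1 := hw
        linear_combination (17 / 48 : ℂ) * hw')) (fun w hw => (hcon w).2 (by
        have hw' : (G w + 145 / 48) * (48 / 17) = -1 := hw
        linear_combination (17 / 48 : ℂ) * hw')) z 0
      have hp' : (G z + 145 / 48) * (48 / 17) = (G 0 + 145 / 48) * (48 / 17) := hp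
      have hGz : G z = 0 := by
        rw [hG0] at hp'
        linear_combination (17 / 48 : ℂ) * hp'
      have hGz' : z * f (Ring.inverse (1 - z • A) x) = 0 := hGz
      rcases mul_eq_zero.mp hGz' with h | h
      · exact hz0 h
      · exact hzf h
    obtain ⟨z1, hz1⟩ := hatt
    have hz10 : z1 ≠ 0 := by
      rintro rfl
      rw [hG0] at hz1
      rcases hz1 with h | h <;> norm_num at h
    rcases hz1 with h | h
    · left
      apply final z1 2 hz10 two_ne_zero
      have h' : z1 * f (Ring.inverse (1 - z1 • A) x) = -8 / 3 := h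
      rw [h']; norm_num
    · right
      apply final z1 3 hz10 three_ne_zero
      have h' : z1 * f (Ring.inverse (1 - z1 • A) x) = -27 / 8 := h
      rw [h']; norm_num

theorem fg_of_star_int [CompleteSpace X] {A : X →L[ℂ] X} (hA : QN A)
    (h : ∀ V : X →L[ℂ] X, QN V → QN (V + A) → QN (V - A) →
      QN (V + (2 : ℂ) • A) ∧ QN (V + (3 : ℂ) • A)) :
    (LinearMap.range (A : X →ₗ[ℂ] X)).FG := by
  by_contra hcon
  by_cases h8 : ∀ x, (A ^ 8) x = 0
  · -- nilpotent case
    set K : Submodule ℂ X := LinearMap.range (A : X →ₗ[ℂ] X) ⊓ LinearMap.ker (A : X →ₗ[ℂ] X)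
      with hK
    by_cases hfg : K.FG
    · apply hcon
      -- downward induction
      have hstep : ∀ j : ℕ, 1 ≤ j → (LinearMap.range ((A ^ (j + 1) : X →L[ℂ] X) :
          X →ₗ[ℂ] X)).FG → (LinearMap.range ((A ^ j : X →L[ℂ] X) : X →ₗ[ℂ] X)).FG := by
        intro j hj hj1
        apply Submodule.fg_of_fg_map_of_fg_inf_ker (A : X →ₗ[ℂ] X)
        · have : (LinearMap.range ((A ^ j : X →L[ℂ] X) : X →ₗ[ℂ] X)).map (A : X →ₗ[ℂ] X) =
              LinearMap.range ((A ^ (j + 1) : X →L[ℂ] X) : X →ₗ[ℂ] X) := by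
            ext w
            constructor
            · rintro ⟨v, ⟨u, hu⟩, hv⟩
              refine ⟨u, ?_⟩
              rw [← hv, ← hu, pow_succ']
              rfl
            · rintro ⟨u, hu⟩
              refine ⟨(A ^ j) u, ⟨u, rfl⟩, ?_⟩
              rw [← hu, pow_succ']
              rfl
          rw [this]; exact hj1
        · refine Submodule.FG.of_le hfg ?_
          rintro w ⟨⟨u, hu⟩, hw⟩
          refine ⟨⟨(A ^ (j - 1)) u, ?_⟩, hw⟩
          rw [← hu]
          show A ((A ^ (j - 1)) u) = (A ^ j) u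
          have : A ^ j = A * A ^ (j - 1) := by
            rw [← pow_succ']; congr 1; omega
          rw [this]; rfl
      have h80 : (LinearMap.range ((A ^ 8 : X →L[ℂ] X) : X →ₗ[ℂ] X)).FG := by
        have : LinearMap.range ((A ^ 8 : X →L[ℂ] X) : X →ₗ[ℂ] X) = ⊥ := by
          rw [LinearMap.range_eq_bot]
          ext w; exact h8 w
        rw [this]; exact Submodule.fg_bot
      have h7 := hstep 7 (by norm_num) h80
      have h6 := hstep 6 (by norm_num) h7
      have h5 := hstep 5 (by norm_num) h6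
      have h4 := hstep 4 (by norm_num) h5
      have h3 := hstep 3 (by norm_num) h4
      have h2 := hstep 2 (by norm_num) h3
      have h1 := hstep 1 (by norm_num) h2
      rw [pow_one] at h1
      exact h1
    · obtain ⟨v, hv, hvK⟩ := exists_li_of_not_fg hfg 3
      choose x hx using fun i => (hvK i).1
      have hxv : ∀ i, A (x i) = v i := hx
      have hA2 : ∀ i, A (A (x i)) = 0 := by
        intro i
        rw [hxv]
        exact (hvK i).2
      have hli : LinearIndependent ℂ (fun j => A (x j)) := by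
        have : (fun j => A (x j)) = v := funext hxv
        rw [this]; exact hv
      obtain ⟨V, h1, h2, h3, h4⟩ := NStar_gadget_three hA x hA2 hli
      exact h4 (h V h1 h2 h3).1
  · push Not at h8
    obtain ⟨x, hx⟩ := h8
    obtain ⟨f, hf⟩ := exists_dual (li_pow hA hx) (fun k => if (k : ℕ) = 5 then (1 : ℂ) else 0)
    have hf' : ∀ k ≤ 8, f ((A ^ k) x) = if k = 5 then 1 else 0 := by
      intro k hk
      exact hf ⟨k, by omega⟩
    obtain ⟨V, h1, h2, h3, h4⟩ := NStar_gadget_big hA x f hf'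
    rcases h4 with h4 | h4
    · exact h4 (h V h1 h2 h3).1
    · exact h4 (h V h1 h2 h3).2

end Pool.Agent.H.MP_bb4c62_an.helper6.NL
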