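import Pool.Agent.H.MP_bb4c62_an.helper6.NData
import Pool.Agent.H.MP_bb4c62_an.helper28.NFtag

/-!
Standard form of nonlinear data of type one on the isotropic pairs.
-/

namespace Pool.Agent.H.MP_bb4c62_an.helper6.NL

open Complex Metric Set Filter Topology
open Pool.Agent.H.MP_bb4c62_an.helper6.Perturb
open Pool.Agent.H.MP_bb4c62_an.helper6.Gadgets

variable {X : Type*} [NormedAddCommGroup X] [NormedSpace ℂ X]
variable {Y : Type*} [NormedAddCommGroup Y] [NormedSpace ℂ Y]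

/-- proportional rank one operators -/
theorem NStd_ten_eq {y1 y2 : Y} {g1 g2 : Y →L[ℂ] ℂ} {l1 l2 : ℂ} (_hy1 : y1 ≠ 0) (hy2 : y2 ≠ 0)
    (_hg1 : g1 ≠ 0) (hg2 : g2 ≠ 0) (_hl1 : l1 ≠ 0) (hl2 : l2 ≠ 0)
    (h : l1 • ten y1 g1 = l2 • ten y2 g2) :
    (∃ d : ℂ, d ≠ 0 ∧ y2 = d • y1) ∧ (∃ d : ℂ, d ≠ 0 ∧ g2 = d • g1) := by
  have hap : ∀ w, (l1 * g1 w) • y1 = (l2 * g2 w) • y2 := by
    intro w
    have h1 : (l1 • ten y1 g1) w = (l2 • ten y2 g2) w := by rw [h]
    have h2 : l1 • (g1 w • y1) = l2 • (g2 w • y2) := h1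
    rwa [smul_smul, smul_smul] at h2
  constructor
  · obtain ⟨w, hw⟩ := exists_apply_one hg2
    have h1 := hap w
    rw [hw, mul_one] at h1
    have h2 : y2 = (l2⁻¹ * (l1 * g1 w)) • y1 := by
      rw [mul_smul, h1, smul_smul, inv_mul_cancel₀ hl2, one_smul]
    refine ⟨_, ?_, h2⟩
    intro h3
    rw [h3, zero_smul] at h2
    exact hy2 h2
  · obtain ⟨η, hη⟩ := SeparatingDual.exists_eq_one (R := ℂ) hy2
    have h2 : g2 = (l2⁻¹ * (l1 * η y1)) • g1 := by
      ext w
      have h1 : η ((l1 * g1 w) • y1) = η ((l2 * g2 w) • y2) := by rw [hap w]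
      rw [map_smul, map_smul, hη, smul_eq_mul, smul_eq_mul, mul_one] at h1
      show g2 w = (l2⁻¹ * (l1 * η y1)) * g1 w
      field_simp
      linear_combination -h1
    refine ⟨_, ?_, h2⟩
    intro h3
    apply hg2
    rw [h2, h3]
    ext w
    simp

/-- separation of a vector from a two dimensional span -/
theorem NStd_sep {y y' z : Y} (h : z ∉ Submodule.span ℂ {y, y'}) :
    ∃ g : Y →L[ℂ] ℂ, g y = 0 ∧ g y' = 0 ∧ g z ≠ 0 := by
  have hfin : FiniteDimensional ℂ (Submodule.span ℂ ({y, y'} : Set Y)) :=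
    FiniteDimensional.span_of_finite ℂ (Set.toFinite _)
  set W := Submodule.span ℂ ({y, y'} : Set Y) with hW
  let b := Module.finBasis ℂ W
  have hb : LinearIndependent ℂ (fun i => (b i : Y)) :=
    b.linearIndependent.map' W.subtype (Submodule.ker_subtype W)
  have hsp : Submodule.span ℂ (Set.range (fun i => (b i : Y))) = W := by
    have h1 : Set.range (fun i => (b i : Y)) = W.subtype '' Set.range b := by
      rw [← Set.range_comp]; rfl
    rw [h1, Submodule.span_image, b.span_eq, Submodule.map_top, Submodule.range_subtype]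
  have hli : LinearIndependent ℂ (Fin.cons z (fun i => (b i : Y)) :
      Fin (Module.finrank ℂ W + 1) → Y) := by
    rw [linearIndependent_finCons]
    refine ⟨hb, ?_⟩
    rw [hsp]; exact h
  obtain ⟨g, hg⟩ := exists_dual hli (Fin.cons 1 (fun _ => 0))
  have hgz : g z = 1 := by simpa using hg 0
  have hgb : ∀ i, g (b i : Y) = 0 := fun i => by simpa using hg i.succ
  have hgW : ∀ w ∈ W, g w = 0 := by
    intro w hw
    rw [← hsp] at hw
    induction hw using Submodule.span_induction with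
    | mem x hx =>
      obtain ⟨i, rfl⟩ := hx
      exact hgb i
    | zero => exact map_zero g
    | add a c _ _ ha hc => rw [map_add, ha, hc, add_zero]
    | smul a c _ hc => rw [map_smul, hc, smul_zero]
  refine ⟨g, hgW y (Submodule.subset_span (by simp)), hgW y' (Submodule.subset_span (by simp)), ?_⟩
  rw [hgz]; exact one_ne_zero

variable {E E' : Type*} [AddCommGroup E] [Module ℂ E] [AddCommGroup E'] [Module ℂ E']
variable {P : E →ₗ[ℂ] E' →ₗ[ℂ] ℂ} {B : E → E' → (Y →L[ℂ] Y)}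

theorem NStd_nd (D : NData P B) {f : E'} (hf : f ≠ 0) : ∃ x, P x f = 1 := by
  by_contra hcon
  push Not at hcon
  have h0 : ∀ x, P x f = 0 := by
    intro x
    by_contra hx
    apply hcon ((P x f)⁻¹ • x)
    rw [map_smul, LinearMap.smul_apply, smul_eq_mul, inv_mul_cancel₀ hx]
  have := D.sepE' 0 0 f (fun x _ _ => h0 x)
  simp at this
  exact hf this

/-- injectivity on a fixed functional -/
theorem NStd_inj (D : NData P B) {x x' : E} {f : E'} (hx : x ≠ 0) (hx' : x' ≠ 0) (hf : f ≠ 0)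
    (h : P x f = 0) (h' : P x' f = 0) {μ : ℂ} (he : B x' f = μ • B x f) :
    ∃ c : ℂ, x' = c • x := by
  obtain ⟨N, hN, hr⟩ := D.liner 0 x f (by simp) h hx hf
  have h1 : B x f ∈ Set.range (fun t : ℂ => B (0 + t • x) f) := ⟨1, by simp⟩
  rw [hr] at h1
  obtain ⟨s0, hs0⟩ := h1
  have hs0' : B x f = s0 • N := by
    rw [← hs0]
    show B 0 f + s0 • N = s0 • N
    rw [D.zl, zero_add]
  have h2 : B x' f ∈ Set.range (fun s : ℂ => B 0 f + s • N) := by
    refine ⟨μ * s0, ?_⟩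
    show B 0 f + (μ * s0) • N = B x' f
    rw [he, hs0', smul_smul, D.zl, zero_add]
  rw [← hr] at h2
  obtain ⟨t, ht⟩ := h2
  have ht' : B (t • x) f = B x' f := by
    have : B (0 + t • x) f = B x' f := ht
    rwa [zero_add] at this
  have htx : t • x ≠ 0 := by
    intro h0
    rw [h0, D.zl] at ht'
    exact D.ne x' f h' hx' hf ht'.symm
  obtain ⟨⟨c, hc⟩, -⟩ := D.inj (t • x) x' f f (by rw [map_smul, LinearMap.smul_apply, h, smul_zero])
    h' htx hf ht'
  exact ⟨c * t, by rw [hc, smul_smul]⟩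

/-- the scalar is constant along the functionals isotropic to a fixed vector -/
theorem NStd_lam (D : NData P B) {x : E} (hx : x ≠ 0) (τ : ℂ ≃+* ℂ) (R : E' → (Y →L[ℂ] Y))
    (hadd : ∀ f f', R (f + f') = R f + R f') (hsmul : ∀ (c : ℂ) f, R (c • f) = τ c • R f)
    (hinj : ∀ f, R f = 0 → f = 0) (lam : E' → ℂ)
    (hlam : ∀ f, f ≠ 0 → P x f = 0 → lam f ≠ 0 ∧ B x f = lam f • R f) :
    ∀ f f', f ≠ 0 → f' ≠ 0 → P x f = 0 → P x f' = 0 → lam f = lam f' := by
  -- the independent case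
  have key : ∀ f f', f ≠ 0 → f' ≠ 0 → P x f = 0 → P x f' = 0 → (¬ ∃ c : ℂ, f' = c • f) →
      lam f = lam f' := by
    intro f f' hf hf' h h' hind
    by_contra hne
    obtain ⟨hl0, hB0⟩ := hlam f hf h
    obtain ⟨hl1, hB1⟩ := hlam f' hf' h'
    have hh0 : f' - f ≠ 0 := by
      intro h0
      exact hind ⟨1, by rw [one_smul]; exact sub_eq_zero.mp h0⟩
    have hPh : P x (f' - f) = 0 := by rw [map_sub, h, h', sub_zero]
    obtain ⟨N, hN, hr⟩ := D.linel x f (f' - f) h hPh hx hh0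
    have h1 : B x f' ∈ Set.range (fun t : ℂ => B x (f + t • (f' - f))) := ⟨1, by simp⟩
    rw [hr] at h1
    obtain ⟨s1, hs1⟩ := h1
    have hs1' : B x f + s1 • N = B x f' := hs1
    have hd : lam f - lam f' ≠ 0 := sub_ne_zero.mpr hne
    set s : ℂ := lam f / (lam f - lam f') with hs
    have hs0 : s ≠ 0 := div_ne_zero hl0 hd
    have h2 : B x f + (s * s1) • N ∈ Set.range (fun s : ℂ => B x f + s • N) := ⟨s * s1, rfl⟩
    rw [← hr] at h2
    obtain ⟨t, ht⟩ := h2
    have ht' : B x (f + t • (f' - f)) = B x f + (s * s1) • N := ht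
    have h3 : B x f + (s * s1) • N = (s * lam f') • R (f' - f) := by
      have e1 : s1 • N = B x f' - B x f := by rw [← hs1']; abel
      have e2 : R f' = R (f' - f) + R f := by rw [← hadd, sub_add_cancel]
      rw [mul_smul, e1, hB0, hB1, e2]
      have e3 : s * lam f' = s * lam f - lam f := by
        rw [hs]; field_simp; ring
      have e4 : lam f • R f + s • (lam f' • (R (f' - f) + R f) - lam f • R f)
          = (s * lam f') • R (f' - f) + (lam f + s * lam f' - s * lam f) • R f := by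
        module
      rw [e4, e3]
      have e5 : lam f + (s * lam f - lam f) - s * lam f = 0 := by ring
      rw [e5, zero_smul, add_zero]
    have hfth : f + t • (f' - f) ≠ 0 := by
      intro h0
      by_cases ht0 : t = 0
      · rw [ht0, zero_smul, add_zero] at h0
        exact hf h0
      · apply hind
        refine ⟨t⁻¹ * (t - 1), ?_⟩
        have e1 : t • f' = (t - 1) • f := by
          have e2 : t • f' - (t - 1) • f = f + t • (f' - f) := by module
          rw [h0] at e2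
          exact sub_eq_zero.mp e2
        rw [mul_smul, ← e1, smul_smul, inv_mul_cancel₀ ht0, one_smul]
    have hPt : P x (f + t • (f' - f)) = 0 := by
      rw [map_add, map_smul, h, hPh, smul_zero, add_zero]
    obtain ⟨hlt, hBt⟩ := hlam _ hfth hPt
    rw [hBt, h3] at ht'
    -- so `f + t (f' - f)` is a multiple of `f' - f`
    set c : ℂ := τ.symm ((lam (f + t • (f' - f)))⁻¹ * (s * lam f')) with hc
    have h4 : R (f + t • (f' - f)) = R (c • (f' - f)) := by
      rw [hsmul, hc, RingEquiv.apply_symm_apply, mul_smul, ← ht', smul_smul,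
        inv_mul_cancel₀ hlt, one_smul]
    have h5 : f + t • (f' - f) - c • (f' - f) = 0 := by
      apply hinj
      have h6 : R (f + t • (f' - f)) = R (f + t • (f' - f) - c • (f' - f)) + R (c • (f' - f)) := by
        rw [← hadd, sub_add_cancel]
      rw [h4] at h6
      have h7 : R (c • (f' - f)) - R (c • (f' - f)) =
        R (f + t • (f' - f) - c • (f' - f)) := by
        nth_rewrite 1 [h6]
        rw [add_sub_cancel_right]
      rw [sub_self] at h7
      exact h7.symm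
    have h8 : (t - c) • f' = (t - c - 1) • f := by
      have e2 : (t - c) • f' - (t - c - 1) • f = f + t • (f' - f) - c • (f' - f) := by module
      rw [h5] at e2
      exact sub_eq_zero.mp e2
    by_cases htc : t - c = 0
    · rw [htc, zero_smul, zero_sub, neg_smul, one_smul] at h8
      exact hf (neg_eq_zero.mp h8.symm)
    · apply hind
      refine ⟨(t - c)⁻¹ * (t - c - 1), ?_⟩
      rw [mul_smul, ← h8, smul_smul, inv_mul_cancel₀ htc, one_smul]
  intro f f' hf hf' h h'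
  by_cases hind : ∃ c : ℂ, f' = c • f
  · obtain ⟨c, hc⟩ := hind
    obtain ⟨z, hz⟩ := NStd_nd D hf
    obtain ⟨f'', hf'', hx'', hz''⟩ := D.d3 x z
    have hnd : ∀ d : ℂ, f'' ≠ d • f := by
      intro d hd
      rw [hd, map_smul, hz, smul_eq_mul, mul_one] at hz''
      rw [hz'', zero_smul] at hd
      exact hf'' hd
    have hc0 : c ≠ 0 := by
      rintro rfl
      rw [zero_smul] at hc
      exact hf' hc
    rw [key f f'' hf hf'' h hx'' (fun ⟨d, hd⟩ => hnd d hd)]
    rw [key f' f'' hf' hf'' h' hx'' ?_]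
    rintro ⟨d, hd⟩
    apply hnd (d * c)
    rw [hd, hc, smul_smul]
  · exact key f f' hf hf' h h' hind

theorem NData.std (D : NData P B) (hI : TypeI P B) :
    ∃ (c : ℂ) (τ : ℂ ≃+* ℂ) (S : E ≃+ Y) (Q : E' → (Y →L[ℂ] ℂ)), c ≠ 0 ∧
      (∀ (a : ℂ) x, S (a • x) = τ a • S x) ∧
      (∀ x f, Q f (S x) = τ (P x f)) ∧
      ∀ x f, P x f = 0 → B x f = c • ten (S x) (Q f) := by
  classical
  obtain ⟨hI1, hI2⟩ := hI
  choose! p hp using hI1
  choose! q hq using hI2
  have hp0 : ∀ x, x ≠ 0 → p x ≠ 0 := fun x hx => (hp x hx).1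
  have hq0 : ∀ f, f ≠ 0 → q f ≠ 0 := fun f hf => (hq f hf).1
  -- (0)
  have h0 : ∀ x f, x ≠ 0 → f ≠ 0 → P x f = 0 → ∃ l : ℂ, l ≠ 0 ∧ B x f = l • ten (p x) (q f) := by
    intro x f hx hf h
    obtain ⟨g, hg⟩ := (hp x hx).2 f h
    obtain ⟨y, hy⟩ := (hq f hf).2 x h
    have hne := D.ne x f h hx hf
    have hg0 : g ≠ 0 := by
      rintro rfl
      apply hne; rw [hg]; exact ten_eq_zero_iff.mpr (Or.inr rfl)
    have hy0 : y ≠ 0 := by
      rintro rfl
      apply hne; rw [hy]; exact ten_eq_zero_iff.mpr (Or.inl rfl)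
    obtain ⟨⟨d, hd, hyd⟩, -⟩ := NStd_ten_eq (hp0 x hx) hy0 hg0 (hq0 f hf) one_ne_zero
      (one_ne_zero (α := ℂ)) (by rw [one_smul, one_smul, ← hg, ← hy])
    exact ⟨d, hd, by rw [hy, hyd, ten_smul_left]⟩
  -- (b)
  have hinj : ∀ x x', x ≠ 0 → x' ≠ 0 → (∃ d : ℂ, p x' = d • p x) → ∃ c : ℂ, x' = c • x := by
    rintro x x' hx hx' ⟨d, hd⟩
    obtain ⟨f, hf, h, h'⟩ := D.d3 x x'
    obtain ⟨l, hl, hB⟩ := h0 x f hx hf h
    obtain ⟨l', hl', hB'⟩ := h0 x' f hx' hf h'
    refine NStd_inj D hx hx' hf h h' (μ := l' * d * l⁻¹) ?_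
    rw [hB', hB, hd, ten_smul_left, smul_smul, smul_smul, mul_assoc _ l⁻¹, inv_mul_cancel₀ hl,
      mul_one]
  have hinj' : ∀ f f', f ≠ 0 → f' ≠ 0 → (∃ d : ℂ, q f' = d • q f) → ∃ c : ℂ, f' = c • f := by
    rintro f f' hf hf' ⟨d, hd⟩
    obtain ⟨x, hx, h, h'⟩ := D.d3' f f'
    obtain ⟨l, hl, hB⟩ := h0 x f hx hf h
    obtain ⟨l', hl', hB'⟩ := h0 x f' hx hf' h'
    refine NStd_inj D.flip hf hf' hx h h' (μ := l' * d * l⁻¹) ?_
    show B x f' = (l' * d * l⁻¹) • B x f
    rw [hB', hB, hd, ten_smul_right, smul_smul, smul_smul, mul_assoc _ l⁻¹, inv_mul_cancel₀ hl,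
      mul_one]
  -- (a)
  have hproj : ∀ x (c : ℂ), x ≠ 0 → c ≠ 0 → ∃ d : ℂ, p (c • x) = d • p x := by
    intro x c hx hc
    obtain ⟨f, hf, h, -⟩ := D.d3 x x
    have hcx : c • x ≠ 0 := smul_ne_zero hc hx
    have hcf : c • f ≠ 0 := smul_ne_zero hc hf
    obtain ⟨l, hl, hB⟩ := h0 (c • x) f hcx hf (by rw [map_smul, LinearMap.smul_apply, h, smul_zero])
    obtain ⟨l', hl', hB'⟩ := h0 x (c • f) hx hcf (by rw [map_smul, h, smul_zero])
    have := D.scal x f c h
    rw [hB, hB'] at this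
    obtain ⟨⟨d, -, hd⟩, -⟩ := NStd_ten_eq (hp0 x hx) (hp0 _ hcx) (hq0 _ hcf) (hq0 f hf) hl' hl
      this.symm
    exact ⟨d, hd⟩
  -- (c)
  obtain ⟨f1, hf1, -, -⟩ := D.d3 0 0
  obtain ⟨x1, hx1, hP1, -⟩ := D.d3' f1 f1
  have hn1 : ∀ x f, x ≠ 0 → f ≠ 0 → P x f = 0 → q f (p x) = 0 := by
    intro x f hx hf h
    obtain ⟨l, hl, hB⟩ := h0 x f hx hf h
    have := D.n1 x f h
    rw [hB, ← ten_smul_right, n1_ten_iff] at this
    have h1 : l * q f (p x) = 0 := this
    exact (mul_eq_zero.mp h1).resolve_left hl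
  have hb0 : q f1 (p x1) = 0 := hn1 x1 f1 hx1 hf1 hP1
  have hsurj0 : ∀ (y : Y) (g : Y →L[ℂ] ℂ), y ≠ 0 → g ≠ 0 → g y = 0 → ∃ x f, x ≠ 0 ∧ f ≠ 0 ∧
      P x f = 0 ∧ (∃ d : ℂ, d ≠ 0 ∧ y = d • p x) ∧ (∃ d : ℂ, d ≠ 0 ∧ g = d • q f) := by
    intro y g hy hg hgy
    obtain ⟨x, f, h, hB⟩ := D.surj (ten y g) (n1_ten_iff.mpr hgy)
    have hne : ten y g ≠ 0 := by
      intro h'
      rcases ten_eq_zero_iff.mp h' with h' | h'
      · exact hy h'
      · exact hg h'
    have hx : x ≠ 0 := by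
      rintro rfl
      rw [D.zl] at hB
      exact hne hB.symm
    have hf : f ≠ 0 := by
      rintro rfl
      rw [D.zr] at hB
      exact hne hB.symm
    obtain ⟨l, hl, hB'⟩ := h0 x f hx hf h
    rw [hB'] at hB
    obtain ⟨h1, h2⟩ := NStd_ten_eq (hp0 x hx) hy (hq0 f hf) hg hl (one_ne_zero (α := ℂ))
      (by rw [one_smul]; exact hB)
    exact ⟨x, f, hx, hf, h, h1, h2⟩
  have hsurj : ∀ y : Y, y ≠ 0 → ∃ x, x ≠ 0 ∧ ∃ d : ℂ, y = d • p x := by
    intro y hy
    obtain ⟨g, hg, hgy⟩ : ∃ g : Y →L[ℂ] ℂ, g ≠ 0 ∧ g y = 0 := by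
      by_cases h : q f1 y = 0
      · exact ⟨q f1, hq0 f1 hf1, h⟩
      · obtain ⟨⟨η, hη1, hη2⟩, -⟩ := exists_sep' (y2 := p x1) hy (by
          rintro ⟨c, hc⟩
          rw [hc, map_smul, smul_eq_mul] at hb0
          have hc0 : c = 0 := (mul_eq_zero.mp hb0).resolve_right h
          apply hp0 x1 hx1
          rw [hc, hc0, zero_smul])
        refine ⟨η, ?_, hη1⟩
        intro h'
        rw [h'] at hη2
        exact zero_ne_one hη2
    obtain ⟨x, f, hx, hf, h, ⟨d, -, hd⟩, -⟩ := hsurj0 y g hy hg hgy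
    exact ⟨x, hx, d, hd⟩
  have hsurj' : ∀ g : Y →L[ℂ] ℂ, g ≠ 0 → ∃ f, f ≠ 0 ∧ ∃ d : ℂ, d ≠ 0 ∧ g = d • q f := by
    intro g hg
    obtain ⟨y, hy, hgy⟩ : ∃ y : Y, y ≠ 0 ∧ g y = 0 := by
      by_cases h : g (p x1) = 0
      · exact ⟨p x1, hp0 x1 hx1, h⟩
      · obtain ⟨w, hw⟩ := exists_apply_one (hq0 f1 hf1)
        refine ⟨w - (g w / g (p x1)) • p x1, ?_, ?_⟩
        · intro h'
          have h3 : q f1 (w - (g w / g (p x1)) • p x1) = 0 := by rw [h', map_zero]
          rw [map_sub, map_smul, hw, hb0] at h3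
          simp at h3
        · rw [map_sub, map_smul, smul_eq_mul, div_mul_cancel₀ _ h, sub_self]
    obtain ⟨x, f, hx, hf, h, -, h2⟩ := hsurj0 y g hy hg hgy
    exact ⟨f, hf, h2⟩
  -- (d)
  have hinc : ∀ x f, x ≠ 0 → f ≠ 0 → (q f (p x) = 0 ↔ P x f = 0) := by
    intro x f hx hf
    refine ⟨?_, hn1 x f hx hf⟩
    intro h
    obtain ⟨x', f', hx', hf', hP', ⟨d, hd, hpd⟩, ⟨d', hd', hqd⟩⟩ :=
      hsurj0 (p x) (q f) (hp0 x hx) (hq0 f hf) h
    obtain ⟨c, hc⟩ := hinj x' x hx' hx ⟨d, hpd⟩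
    obtain ⟨c', hc'⟩ := hinj' f' f hf' hf ⟨d', hqd⟩
    rw [hc, hc', map_smul, map_smul, LinearMap.smul_apply, hP', smul_zero, smul_zero]
  -- (e)
  have hcol : ∀ x x' z, x ≠ 0 → x' ≠ 0 → z ≠ 0 →
      (z ∈ Submodule.span ℂ {x, x'} ↔ p z ∈ Submodule.span ℂ {p x, p x'}) := by
    intro x x' z hx hx' hz
    constructor
    · intro hmem
      by_contra hcon
      obtain ⟨g, hg1, hg2, hg3⟩ := NStd_sep hcon
      have hg : g ≠ 0 := by
        rintro rfl
        exact hg3 rfl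
      obtain ⟨f, hf, d, hd, hgd⟩ := hsurj' g hg
      have e1 : P x f = 0 := by
        rw [← hinc x f hx hf]
        rw [hgd] at hg1
        have : d * q f (p x) = 0 := hg1
        exact (mul_eq_zero.mp this).resolve_left hd
      have e2 : P x' f = 0 := by
        rw [← hinc x' f hx' hf]
        rw [hgd] at hg2
        have : d * q f (p x') = 0 := hg2
        exact (mul_eq_zero.mp this).resolve_left hd
      apply hg3
      rw [hgd]
      show d * q f (p z) = 0
      rw [(hinc z f hz hf).mpr, mul_zero]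
      rw [Submodule.mem_span_pair] at hmem
      obtain ⟨a, b, hab⟩ := hmem
      rw [← hab, map_add, map_smul, map_smul, LinearMap.add_apply, LinearMap.smul_apply,
        LinearMap.smul_apply, e1, e2, smul_zero, smul_zero, add_zero]
    · intro hmem
      apply D.sepE
      intro f h h'
      by_cases hf : f = 0
      · rw [hf, map_zero]
      rw [← hinc z f hz hf]
      rw [← hinc x f hx hf] at h
      rw [← hinc x' f hx' hf] at h'
      rw [Submodule.mem_span_pair] at hmem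
      obtain ⟨a, b, hab⟩ := hmem
      rw [← hab, map_add, map_smul, map_smul, h, h', smul_zero, smul_zero, add_zero]
  -- (f)
  obtain ⟨τ, S, hS, hSp⟩ := ftpg D.dim p hp0 hproj hinj hsurj hcol (P.flip f1)
    (q f1 : Y →ₗ[ℂ] ℂ) (by
      intro h
      obtain ⟨x, hx⟩ := NStd_nd D hf1
      have h1 : P.flip f1 x = 0 := by rw [h]; rfl
      rw [LinearMap.flip_apply, hx] at h1
      exact one_ne_zero h1) (fun x hx => hinc x f1 hx hf1)
  have hSne : ∀ x, x ≠ 0 → S x ≠ 0 := by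
    intro x hx h
    apply hx
    have : S x = S 0 := by rw [h, map_zero]
    exact S.injective this
  -- (g)
  have hg : ∀ f, f ≠ 0 → ∃ k : ℂ, k ≠ 0 ∧ ∀ x, q f (S x) = k * τ (P x f) := by
    intro f hf
    obtain ⟨z, hz⟩ := NStd_nd D hf
    have hz0 : z ≠ 0 := by
      rintro rfl
      rw [map_zero, LinearMap.zero_apply] at hz
      exact zero_ne_one hz
    refine ⟨q f (S z), ?_, ?_⟩
    · obtain ⟨d, hd, hd'⟩ := hSp z hz0
      rw [hd', map_smul, smul_eq_mul]
      apply mul_ne_zero hd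
      intro h
      rw [hinc z f hz0 hf, hz] at h
      exact one_ne_zero h
    · intro x
      have hker : q f (S (x - P x f • z)) = 0 := by
        by_cases hx : x - P x f • z = 0
        · rw [hx, map_zero, map_zero]
        · obtain ⟨d, hd, hd'⟩ := hSp _ hx
          rw [hd', map_smul, (hinc _ f hx hf).mpr, smul_zero]
          rw [map_sub, map_smul, LinearMap.sub_apply, LinearMap.smul_apply, hz, smul_eq_mul,
            mul_one, sub_self]
      have hxd : x = (x - P x f • z) + P x f • z := by abel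
      conv_lhs => rw [hxd]
      rw [map_add, map_add, hker, zero_add, hS, map_smul, smul_eq_mul, mul_comm]
  choose! k hk0 hk using hg
  set Q : E' → (Y →L[ℂ] ℂ) := fun f => if f = 0 then 0 else (k f)⁻¹ • q f with hQ
  have hQ0 : Q 0 = 0 := by rw [hQ]; simp
  have hQS : ∀ x f, Q f (S x) = τ (P x f) := by
    intro x f
    by_cases hf : f = 0
    · rw [hf, hQ0, map_zero, map_zero]; rfl
    · have : Q f = (k f)⁻¹ • q f := by rw [hQ]; simp [hf]
      rw [this]
      show (k f)⁻¹ * q f (S x) = _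
      rw [hk f hf, ← mul_assoc, inv_mul_cancel₀ (hk0 f hf), one_mul]
  have hQext : ∀ g g' : Y →L[ℂ] ℂ, (∀ x, g (S x) = g' (S x)) → g = g' := by
    intro g g' h
    ext y
    obtain ⟨x, rfl⟩ := S.surjective y
    exact h x
  have hQadd : ∀ f f', Q (f + f') = Q f + Q f' := by
    intro f f'
    apply hQext
    intro x
    show _ = Q f (S x) + Q f' (S x)
    rw [hQS, hQS, hQS, map_add, map_add]
  have hQsmul : ∀ (c : ℂ) f, Q (c • f) = τ c • Q f := by
    intro c f
    apply hQext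
    intro x
    show _ = τ c * Q f (S x)
    rw [hQS, hQS, map_smul, smul_eq_mul, map_mul]
  have hQinj : ∀ f, Q f = 0 → f = 0 := by
    intro f h
    by_contra hf
    obtain ⟨z, hz⟩ := NStd_nd D hf
    have := hQS z f
    rw [h, hz, map_one] at this
    exact zero_ne_one this
  -- (h)
  have hh : ∀ x f, ∃ l : ℂ, x ≠ 0 → f ≠ 0 → P x f = 0 →
      l ≠ 0 ∧ B x f = l • ten (S x) (Q f) := by
    intro x f
    by_cases hx : x = 0
    · exact ⟨0, fun h => absurd hx h⟩
    by_cases hf : f = 0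
    · exact ⟨0, fun _ h => absurd hf h⟩
    by_cases h : P x f = 0
    · obtain ⟨l, hl, hB⟩ := h0 x f hx hf h
      obtain ⟨d, hd, hd'⟩ := hSp x hx
      have hQf : q f = k f • Q f := by
        have : Q f = (k f)⁻¹ • q f := by rw [hQ]; simp [hf]
        rw [this, smul_smul, mul_inv_cancel₀ (hk0 f hf), one_smul]
      have hpx : p x = d⁻¹ • S x := by
        rw [hd', smul_smul, inv_mul_cancel₀ hd, one_smul]
      refine ⟨l * (d⁻¹ * k f), fun _ _ _ => ⟨?_, ?_⟩⟩
      · exact mul_ne_zero hl (mul_ne_zero (inv_ne_zero hd) (hk0 f hf))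
      · rw [hB, hQf, hpx, ten_smul_left, ten_smul_right, smul_smul, smul_smul, mul_assoc]
    · exact ⟨0, fun _ _ h' => absurd h' h⟩
  choose lam hlam using hh
  have hl1 : ∀ x, x ≠ 0 → ∀ f f', f ≠ 0 → f' ≠ 0 → P x f = 0 → P x f' = 0 →
      lam x f = lam x f' := by
    intro x hx
    refine NStd_lam D hx τ (fun f => ten (S x) (Q f)) ?_ ?_ ?_ (lam x) ?_
    · intro f f'
      show ten (S x) (Q (f + f')) = _
      rw [hQadd, ten_add_right']
    · intro c f
      show ten (S x) (Q (c • f)) = _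
      rw [hQsmul, ten_smul_right]
    · intro f h
      rcases ten_eq_zero_iff.mp h with h | h
      · exact absurd h (hSne x hx)
      · exact hQinj f h
    · intro f hf h
      exact hlam x f hx hf h
  have hl2 : ∀ f, f ≠ 0 → ∀ x x', x ≠ 0 → x' ≠ 0 → P x f = 0 → P x' f = 0 →
      lam x f = lam x' f := by
    intro f hf
    refine NStd_lam D.flip hf τ (fun x => ten (S x) (Q f)) ?_ ?_ ?_ (fun x => lam x f) ?_
    · intro x x'
      show ten (S (x + x')) (Q f) = _
      rw [map_add, ten_add_right]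
    · intro c x
      show ten (S (c • x)) (Q f) = _
      rw [hS, ten_smul_left]
    · intro x h
      rcases ten_eq_zero_iff.mp h with h | h
      · by_contra hx
        exact hSne x hx h
      · exact absurd (hQinj f h) hf
    · intro x hx h
      exact hlam x f hx hf h
  refine ⟨lam x1 f1, τ, S, Q, (hlam x1 f1 hx1 hf1 hP1).1, hS, hQS, ?_⟩
  intro x f h
  by_cases hx : x = 0
  · rw [hx, D.zl, map_zero, ten_eq_zero_iff.mpr (Or.inl rfl), smul_zero]
  by_cases hf : f = 0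
  · rw [hf, D.zr, hQ0, ten_eq_zero_iff.mpr (Or.inr rfl), smul_zero]
  obtain ⟨h', hh', ha, hb⟩ := D.d3 x x1
  rw [(hlam x f hx hf h).2, hl1 x hx f h' hf hh' h ha, hl2 h' hh' x x1 hx hx1 ha hb,
    hl1 x1 hx1 h' f1 hh' hf1 hb hP1]

end Pool.Agent.H.MP_bb4c62_an.helper6.NL
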